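import Mathlib

/-!
# Full signs: the larger sieve and the digit sets
-/

set_option autoImplicit false

open Finset

namespace Pool.Agent.FSS

/-- Number of coincidences of a function with few values. -/
lemma coinc {ι : Type} [DecidableEq ι] (T : Finset ι) (t : ι → ℤ) (ν : ℕ) (hν : 0 < ν)
    (ht : (T.image t).card ≤ ν) :
    (T.card : ℝ) ^ 2 / ν ≤ (((T ×ˢ T).filter fun x => t x.1 = t x.2).card : ℝ) := by
  have h1 : ((T ×ˢ T).filter fun x => t x.1 = t x.2).card =
      ∑ y ∈ T.image t, ((T.filter fun i => t i = y).card) ^ 2 := by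
    rw [Finset.card_eq_sum_card_fiberwise (f := fun x : ι × ι => t x.1) (t := T.image t)]
    · refine Finset.sum_congr rfl fun y _ => ?_
      rw [sq, ← Finset.card_product]
      congr 1
      ext ⟨i, j⟩
      simp only [mem_filter, mem_product]
      constructor
      · rintro ⟨⟨⟨h1, h2⟩, h3⟩, h4⟩
        exact ⟨⟨h1, h4⟩, h2, by rw [← h3]; exact h4⟩
      · rintro ⟨⟨h1, h2⟩, h3, h4⟩
        exact ⟨⟨⟨h1, h3⟩, by rw [h2, h4]⟩, h2⟩
    · intro x hx
      simp only [coe_filter, mem_product, Set.mem_ofPred_eq] at hx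
      exact Finset.mem_coe.2 (Finset.mem_image_of_mem _ hx.1.1)
  have h2 : T.card = ∑ y ∈ T.image t, (T.filter fun i => t i = y).card :=
    Finset.card_eq_sum_card_fiberwise fun x hx => Finset.mem_coe.2 (Finset.mem_image_of_mem _ hx)
  have h3 : (T.card : ℝ) ^ 2 ≤ (T.image t).card *
      ∑ y ∈ T.image t, (((T.filter fun i => t i = y).card : ℕ) : ℝ) ^ 2 := by
    have h4 := sq_sum_le_card_mul_sum_sq (s := T.image t)
      (f := fun y => (((T.filter fun i => t i = y).card : ℕ) : ℝ))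
    rw [← Nat.cast_sum, ← h2] at h4
    exact h4
  have hν' : (0 : ℝ) < ν := by exact_mod_cast hν
  rw [div_le_iff₀ hν', h1]
  push_cast
  refine h3.trans ?_
  rw [mul_comm]
  apply mul_le_mul_of_nonneg_left _ (Finset.sum_nonneg fun _ _ => by positivity)
  exact_mod_cast ht

/-- A sum of logarithms of distinct primes dividing a nonzero integer. -/
lemma sum_log_le (Q : Finset ℕ) (hQ : ∀ q ∈ Q, q.Prime) (D : ℤ) (hD : D ≠ 0)
    (h : ∀ q ∈ Q, (q : ℤ) ∣ D) : ∑ q ∈ Q, Real.log q ≤ Real.log |(D : ℝ)| := by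
  have h1 : (∏ q ∈ Q, q) ∣ D.natAbs := by
    refine Finset.prod_primes_dvd _ (fun p hp => (hQ p hp).prime) (fun p hp => ?_)
    rw [← Int.natCast_dvd_natCast, Int.dvd_natAbs]
    exact h p hp
  have h2 : (∏ q ∈ Q, q) ≤ D.natAbs := Nat.le_of_dvd (Int.natAbs_pos.2 hD) h1
  have h3 : ∑ q ∈ Q, Real.log q = Real.log ((∏ q ∈ Q, q : ℕ) : ℝ) := by
    push_cast
    rw [Real.log_prod]
    intro p hp
    have := (hQ p hp).pos
    positivity
  rw [h3]
  have h4 : (0 : ℝ) < ((∏ q ∈ Q, q : ℕ) : ℝ) := by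
    have : 0 < ∏ q ∈ Q, q := Finset.prod_pos fun p hp => (hQ p hp).pos
    exact_mod_cast this
  apply Real.log_le_log h4
  have h5 : (((∏ q ∈ Q, q : ℕ)) : ℝ) ≤ ((D.natAbs : ℕ) : ℝ) := by exact_mod_cast h2
  rwa [Nat.cast_natAbs, Int.cast_abs] at h5

/-- The larger sieve; for the prime `q` only the indices in `G q` are known to lie in few classes. -/
theorem sieve {ι : Type} [DecidableEq ι] (T : Finset ι) (A : ι → ℤ) (B : ℝ)
    (hA : ∀ i ∈ T, ∀ j ∈ T, i ≠ j → A i ≠ A j)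
    (hB : ∀ i ∈ T, ∀ j ∈ T, i ≠ j → Real.log |((A i - A j : ℤ) : ℝ)| ≤ B)
    (Q : Finset ℕ) (hQ : ∀ q ∈ Q, q.Prime) (ν : ℕ → ℕ) (hν : ∀ q ∈ Q, 2 ≤ ν q)
    (G : ℕ → Finset ι) (hG : ∀ q ∈ Q, G q ⊆ T)
    (t : ℕ → ι → ℤ) (ht : ∀ q ∈ Q, ((G q).image (t q)).card ≤ ν q)
    (hc : ∀ q ∈ Q, ∀ i ∈ G q, ∀ j ∈ G q, t q i = t q j → (q : ℤ) ∣ A i - A j) :
    (T.card : ℝ) ^ 2 * ∑ q ∈ Q, Real.log q / ν q - T.card * ∑ q ∈ Q, Real.log q -
      T.card * ∑ q ∈ Q, Real.log q * (T.card - (G q).card) ≤ T.card * (T.card - 1) * B := by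
  classical
  set O : Finset (ι × ι) := (T ×ˢ T).filter fun x => x.1 ≠ x.2 with hO
  have hOcard : (O.card : ℝ) = T.card * (T.card - 1) := by
    have h0 : O = T.offDiag := by
      ext ⟨i, j⟩
      simp [hO, Finset.mem_offDiag, and_assoc]
    rw [h0, Finset.offDiag_card]
    have : T.card ≤ T.card * T.card := Nat.le_mul_self _
    push_cast [Nat.cast_sub this]
    ring
  have h1 : ∑ x ∈ O, ∑ q ∈ Q.filter (fun q => x.1 ∈ G q ∧ x.2 ∈ G q ∧ t q x.1 = t q x.2),
      Real.log q ≤ T.card * (T.card - 1) * B := by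
    rw [← hOcard, ← nsmul_eq_mul]
    apply Finset.sum_le_card_nsmul
    rintro ⟨i, j⟩ hx
    obtain ⟨hx1, hx2⟩ := Finset.mem_filter.1 hx
    obtain ⟨hi, hj⟩ := Finset.mem_product.1 hx1
    refine le_trans (sum_log_le _ (fun q hq => hQ q (Finset.mem_filter.1 hq).1) (A i - A j)
      (sub_ne_zero.2 (hA i hi j hj hx2)) (fun q hq => ?_)) (hB i hi j hj hx2)
    obtain ⟨hq1, hq2, hq3, hq4⟩ := Finset.mem_filter.1 hq
    exact hc q hq1 i hq2 j hq3 hq4
  refine le_trans ?_ h1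
  have h2 : ∑ x ∈ O, ∑ q ∈ Q.filter (fun q => x.1 ∈ G q ∧ x.2 ∈ G q ∧ t q x.1 = t q x.2),
      Real.log q = ∑ q ∈ Q, Real.log q *
        ((O.filter fun x => x.1 ∈ G q ∧ x.2 ∈ G q ∧ t q x.1 = t q x.2).card : ℝ) := by
    simp_rw [Finset.sum_filter]
    rw [Finset.sum_comm]
    refine Finset.sum_congr rfl fun q _ => ?_
    rw [← Finset.sum_filter, Finset.sum_const, nsmul_eq_mul, mul_comm]
  rw [h2, Finset.mul_sum, Finset.mul_sum, Finset.mul_sum, ← Finset.sum_sub_distrib,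
    ← Finset.sum_sub_distrib]
  refine Finset.sum_le_sum fun q hq => ?_
  have hlog : 0 ≤ Real.log q := Real.log_natCast_nonneg q
  have hν2 : (2 : ℝ) ≤ ν q := by exact_mod_cast hν q hq
  have h3 := coinc (G q) (t q) (ν q) (by have := hν q hq; omega) (ht q hq)
  have h4 : (((G q ×ˢ G q).filter fun x => t q x.1 = t q x.2).card : ℝ) ≤
      ((O.filter fun x => x.1 ∈ G q ∧ x.2 ∈ G q ∧ t q x.1 = t q x.2).card : ℝ) + (G q).card := by
    have h5 : ((G q ×ˢ G q).filter fun x => t q x.1 = t q x.2) ⊆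
        (O.filter fun x => x.1 ∈ G q ∧ x.2 ∈ G q ∧ t q x.1 = t q x.2) ∪
          (G q).image (fun i => (i, i)) := by
      rintro ⟨i, j⟩ hx
      obtain ⟨hx1, hx2⟩ := Finset.mem_filter.1 hx
      obtain ⟨hi, hj⟩ := Finset.mem_product.1 hx1
      rw [Finset.mem_union]
      by_cases hij : i = j
      · right
        subst hij
        exact Finset.mem_image_of_mem _ hi
      · left
        exact Finset.mem_filter.2 ⟨Finset.mem_filter.2 ⟨Finset.mem_product.2
          ⟨hG q hq hi, hG q hq hj⟩, hij⟩, hi, hj, hx2⟩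
    have h6 := (Finset.card_le_card h5).trans (Finset.card_union_le _ _)
    have h7 : ((G q).image (fun i => (i, i))).card ≤ (G q).card := Finset.card_image_le
    have h8 := h6.trans (Nat.add_le_add_left h7 _)
    exact_mod_cast h8
  have hgr : ((G q).card : ℝ) ≤ T.card := by exact_mod_cast Finset.card_le_card (hG q hq)
  have hg0 : (0 : ℝ) ≤ (G q).card := Nat.cast_nonneg _
  set g : ℝ := ((G q).card : ℝ) with hg
  set r : ℝ := (T.card : ℝ) with hr
  have h5 : r ^ 2 / ν q - r - r * (r - g) ≤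
      ((O.filter fun x => x.1 ∈ G q ∧ x.2 ∈ G q ∧ t q x.1 = t q x.2).card : ℝ) := by
    have h6 : r ^ 2 / ν q - g ^ 2 / ν q ≤ r * (r - g) := by
      rw [← sub_div, div_le_iff₀ (by linarith)]
      have h7 : r ^ 2 - g ^ 2 = (r - g) * (r + g) := by ring
      have h8 : (r - g) * (r + g) ≤ (r - g) * (2 * r) :=
        mul_le_mul_of_nonneg_left (by linarith) (by linarith)
      have h9 : r * (r - g) * 2 ≤ r * (r - g) * ν q :=
        mul_le_mul_of_nonneg_left hν2 (mul_nonneg (by linarith) (by linarith))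
      nlinarith
    linarith
  calc r ^ 2 * (Real.log q / ν q) - r * Real.log q - r * (Real.log q * (r - g))
      = Real.log q * (r ^ 2 / ν q - r - r * (r - g)) := by ring
    _ ≤ _ := mul_le_mul_of_nonneg_left h5 hlog

/-- The sums `±840/1 ± 840/2 ± … ± 840/m`. -/
def TT : ℕ → Finset ℤ
  | 0 => {0}
  | m + 1 => (TT m).image (fun x => x + 840 / ((m : ℤ) + 1)) ∪
      (TT m).image (fun x => x - 840 / ((m : ℤ) + 1))

/-- Bounds for the number of these sums. -/
def cc : ℕ → ℕ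
  | 0 => 1
  | 1 => 2
  | 2 => 4
  | 3 => 8
  | 4 => 16
  | 5 => 32
  | 6 => 52
  | _ => 104

lemma card_TT_succ (m : ℕ) : (TT (m + 1)).card ≤ 2 * (TT m).card := by
  rw [TT]
  refine (Finset.card_union_le _ _).trans ?_
  have h1 := Finset.card_image_le (s := TT m) (f := fun x => x + 840 / ((m : ℤ) + 1))
  have h2 := Finset.card_image_le (s := TT m) (f := fun x => x - 840 / ((m : ℤ) + 1))
  omega

lemma card_TT6 : (TT 6).card = 52 := by decide +kernel

lemma card_TT (m : ℕ) (hm : m ≤ 7) : (TT m).card ≤ cc m := by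
  have h0 : (TT 0).card = 1 := rfl
  have h1 := card_TT_succ 0
  have h2 := card_TT_succ 1
  have h3 := card_TT_succ 2
  have h4 := card_TT_succ 3
  have h5 := card_TT_succ 4
  have h6 := card_TT6
  have h7 := card_TT_succ 6
  norm_num at h1 h2 h3 h4 h5 h7
  interval_cases m <;> simp only [cc] <;> omega

lemma mem_TT (s : ℕ → ℤ) (m : ℕ) (hs : ∀ j, 1 ≤ j → j ≤ m → s j = 1 ∨ s j = -1) :
    ∑ j ∈ Icc 1 m, s j * (840 / (j : ℤ)) ∈ TT m := by
  induction m with
  | zero => simp [TT]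
  | succ m ih =>
    rw [Finset.sum_Icc_succ_top (by omega), TT, Finset.mem_union]
    have h := ih (fun j h1 h2 => hs j h1 (by omega))
    rcases hs (m + 1) (by omega) le_rfl with h1 | h1
    · left
      refine Finset.mem_image.2 ⟨_, h, ?_⟩
      rw [h1]; push_cast; ring
    · right
      refine Finset.mem_image.2 ⟨_, h, ?_⟩
      rw [h1]; push_cast; ring

lemma cc_ge (m : ℕ) (hm : 1 ≤ m) : 2 ≤ cc m := by
  unfold cc
  split <;> omega

end Pool.Agent.FSS
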