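import Pool.Agent.FSS.A


/-!
# Full signs: residues of the numerators and the sums of different prime gaps
-/

set_option autoImplicit false

open Finset

namespace Pool.Agent.FSS

/-- The sum `∑ k ≤ n, δ k / k`. -/
noncomputable def S (n : ℕ) (δ : ℕ → ℤ) : ℝ := ∑ k ∈ Icc 1 n, (δ k : ℝ) / (k : ℝ)

/-- `k` has a prime factor `> n / 8`. -/
def Large (n k : ℕ) : Prop := ∃ q : ℕ, q.Prime ∧ q ∣ k ∧ n < 8 * q

/-- The sign of the largest prime `p ≤ n` is `± 1`. -/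
def Top (n : ℕ) (δ : ℕ → ℤ) : Prop :=
  ∀ p : ℕ, p.Prime → p ≤ n → (∀ r : ℕ, r.Prime → r ≤ n → r ≤ p) → δ p = 1 ∨ δ p = -1

/-- The exceptional indices. -/
def Exc (n : ℕ) (δ : ℕ → ℤ) : Set ℕ :=
  {k : ℕ | 1 ≤ k ∧ k ≤ n ∧ Large n k ∧ δ k ≠ 1 ∧ δ k ≠ -1}

/-- Nearly full signs. -/
def Adm (n : ℕ) (δ : ℕ → ℤ) : Prop :=
  Top n δ ∧ ((Exc n δ).ncard : ℝ) ≤ n / (1000000 * Real.log n)

/-- The numerator over `L`. -/
def AA (L n : ℕ) (δ : ℕ → ℤ) : ℤ := ∑ k ∈ Icc 1 n, δ k * ((L / k : ℕ) : ℤ)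

lemma AA_eq (L n : ℕ) (δ : ℕ → ℤ) (hL : ∀ k ∈ Icc 1 n, k ∣ L) :
    (AA L n δ : ℝ) = (L : ℝ) * S n δ := by
  unfold AA S
  rw [Int.cast_sum, Finset.mul_sum]
  refine Finset.sum_congr rfl fun k hk => ?_
  have hk0 : (k : ℝ) ≠ 0 := by
    have := (Finset.mem_Icc.1 hk).1
    exact_mod_cast (by omega : k ≠ 0)
  rw [Int.cast_mul, Int.cast_natCast, Nat.cast_div (hL k hk) hk0]
  ring

/-- The digit sum of a prime. -/
def tt (q m : ℕ) (δ : ℕ → ℤ) : ℤ := ∑ j ∈ Icc 1 m, δ (q * j) * (840 / (j : ℤ))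

/-- `840 A` modulo a prime `q` is `(L/q)` times the digit sum. -/
lemma residue (L n q : ℕ) (δ : ℕ → ℤ) (hL : ∀ k ∈ Icc 1 n, k ∣ L) (hq : q.Prime) (hqL : q ∣ L)
    (hm : n / q ≤ 8) :
    (q : ℤ) ∣ 840 * AA L n δ - ((L / q : ℕ) : ℤ) * tt q (n / q) δ := by
  classical
  have hq0 := hq.pos
  have h1 : AA L n δ = ∑ k ∈ (Icc 1 n).filter (fun k => q ∣ k), δ k * ((L / k : ℕ) : ℤ) +
      ∑ k ∈ (Icc 1 n).filter (fun k => ¬ q ∣ k), δ k * ((L / k : ℕ) : ℤ) := by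
    rw [Finset.sum_filter_add_sum_filter_not]; rfl
  have h2 : (q : ℤ) ∣ ∑ k ∈ (Icc 1 n).filter (fun k => ¬ q ∣ k), δ k * ((L / k : ℕ) : ℤ) := by
    refine Finset.dvd_sum fun k hk => ?_
    obtain ⟨hk1, hk2⟩ := Finset.mem_filter.1 hk
    apply Dvd.dvd.mul_left
    rw [Int.natCast_dvd_natCast]
    have hdvd : q ∣ k * (L / k) := by
      rw [Nat.mul_div_cancel' (hL k hk1)]
      exact hqL
    exact (hq.dvd_mul.1 hdvd).resolve_left hk2
  have h3 : (Icc 1 n).filter (fun k => q ∣ k) = (Icc 1 (n / q)).image (fun j => q * j) := by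
    ext k
    simp only [mem_filter, Finset.mem_Icc, mem_image]
    constructor
    · rintro ⟨⟨h1, h2⟩, j, rfl⟩
      refine ⟨j, ⟨?_, ?_⟩, rfl⟩
      · rcases Nat.eq_zero_or_pos j with h | h
        · subst h; omega
        · exact h
      · rw [Nat.le_div_iff_mul_le hq0, mul_comm]; exact h2
    · rintro ⟨j, ⟨h1, h2⟩, rfl⟩
      refine ⟨⟨Nat.mul_pos hq0 h1, ?_⟩, dvd_mul_right _ _⟩
      rw [Nat.le_div_iff_mul_le hq0, mul_comm] at h2
      exact h2
  have h4 : 840 * ∑ k ∈ (Icc 1 n).filter (fun k => q ∣ k), δ k * ((L / k : ℕ) : ℤ) =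
      ((L / q : ℕ) : ℤ) * tt q (n / q) δ := by
    rw [h3, Finset.sum_image (by
      intro a _ b _ h
      exact Nat.eq_of_mul_eq_mul_left hq0 h), tt, Finset.mul_sum, Finset.mul_sum]
    refine Finset.sum_congr rfl fun j hj => ?_
    obtain ⟨hj1, hj2⟩ := Finset.mem_Icc.1 hj
    have hj8 : j ≤ 8 := hj2.trans hm
    have hmem : q * j ∈ Icc 1 n := by
      rw [Nat.le_div_iff_mul_le hq0, mul_comm] at hj2
      exact Finset.mem_Icc.2 ⟨Nat.mul_pos hq0 hj1, hj2⟩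
    have hd : q * j ∣ L := hL _ hmem
    have e1 : L / q = j * (L / (q * j)) := by
      obtain ⟨c, rfl⟩ := hd
      rw [Nat.mul_div_cancel_left _ (Nat.mul_pos hq0 hj1), mul_assoc, Nat.mul_div_cancel_left _ hq0]
    have e2 : (840 : ℤ) = (840 / (j : ℤ)) * j := by
      interval_cases j <;> norm_num
    rw [e1]
    push_cast
    calc (840 : ℤ) * (δ (q * j) * ((L / (q * j) : ℕ) : ℤ))
        = ((840 / (j : ℤ)) * j) * (δ (q * j) * ((L / (q * j) : ℕ) : ℤ)) := by rw [← e2]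
      _ = (j : ℤ) * ((L / (q * j) : ℕ) : ℤ) * (δ (q * j) * (840 / (j : ℤ))) := by ring
  rw [h1, mul_add, h4, add_sub_cancel_left]
  exact Dvd.dvd.mul_left h2 _

/-- The largest prime. -/
lemma exists_top (n n' : ℕ) (h : n < n') (h2 : 2 ≤ n')
    (hpi : Nat.primeCounting n ≠ Nat.primeCounting n') :
    ∃ p : ℕ, p.Prime ∧ n < p ∧ p ≤ n' ∧ n' < 2 * p ∧ ∀ r : ℕ, r.Prime → r ≤ n' → r ≤ p := by
  classical
  obtain ⟨p0, hp0, hp1, hp2⟩ := Nat.exists_prime_lt_and_le_two_mul (n' / 2) (by omega)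
  set P := (Icc 1 n').filter Nat.Prime with hP
  have hmem : p0 ∈ P := Finset.mem_filter.2 ⟨Finset.mem_Icc.2 ⟨hp0.one_le, by omega⟩, hp0⟩
  have hne : P.Nonempty := ⟨p0, hmem⟩
  set p := P.max' hne with hp
  obtain ⟨hp3, hp4⟩ := Finset.mem_filter.1 (P.max'_mem hne)
  have hle : p0 ≤ p := P.le_max' _ hmem
  refine ⟨p, hp4, ?_, (Finset.mem_Icc.1 hp3).2, by omega, fun r hr1 hr2 =>
    P.le_max' _ (Finset.mem_filter.2 ⟨Finset.mem_Icc.2 ⟨hr1.one_le, hr2⟩, hr1⟩)⟩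
  by_contra hcon
  apply hpi
  unfold Nat.primeCounting Nat.primeCounting'
  rw [Nat.count_eq_card_filter_range, Nat.count_eq_card_filter_range]
  congr 1
  ext r
  simp only [mem_filter, mem_range]
  constructor
  · rintro ⟨h1, h2⟩
    exact ⟨by omega, h2⟩
  · rintro ⟨h1, h2⟩
    refine ⟨?_, h2⟩
    have : r ≤ p := P.le_max' _ (Finset.mem_filter.2 ⟨Finset.mem_Icc.2 ⟨h2.one_le, by omega⟩, h2⟩)
    omega

/-- Sums of different prime gaps are different. -/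
lemma S_ne (n n' : ℕ) (δ δ' : ℕ → ℤ) (h : n < n') (h16 : 16 ≤ n')
    (hpi : Nat.primeCounting n ≠ Nat.primeCounting n') (hδ' : Top n' δ') :
    S n δ ≠ S n' δ' := by
  classical
  intro heq
  obtain ⟨p, hp, hp1, hp2, hp3, hp4⟩ := exists_top n n' h (by omega) hpi
  set D := ∏ k ∈ (Icc 1 n').erase p, k with hD
  have hpD : ¬ p ∣ D := by
    intro hd
    obtain ⟨k, hk, hk2⟩ := (hp.prime.dvd_finsetProd_iff _).1 hd
    obtain ⟨hk3, hk4⟩ := Finset.mem_erase.1 hk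
    obtain ⟨hk5, hk6⟩ := Finset.mem_Icc.1 hk4
    obtain ⟨c, rfl⟩ := hk2
    have hc1 : c ≠ 1 := by rintro rfl; simp at hk3
    have hc0 : c ≠ 0 := by rintro rfl; simp at hk5
    have hc2 : 2 ≤ c := by omega
    have : p * 2 ≤ p * c := Nat.mul_le_mul_left _ hc2
    omega
  set L := D * p with hL
  have hmem : p ∈ Icc 1 n' := Finset.mem_Icc.2 ⟨hp.one_le, hp2⟩
  have hL' : ∀ k ∈ Icc 1 n', k ∣ L := by
    intro k hk
    by_cases hkp : k = p
    · subst hkp; exact dvd_mul_left _ _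
    · exact Dvd.dvd.mul_right (Finset.dvd_prod_of_mem (fun k => k) (Finset.mem_erase.2 ⟨hkp, hk⟩)) _
  have hLn : ∀ k ∈ Icc 1 n, k ∣ L := by
    intro k hk
    obtain ⟨h1, h2⟩ := Finset.mem_Icc.1 hk
    exact hL' k (Finset.mem_Icc.2 ⟨h1, by omega⟩)
  have hpL : p ∣ L := dvd_mul_left _ _
  have hLp : L / p = D := Nat.mul_div_cancel _ hp.pos
  have hn0 : n / p = 0 := Nat.div_eq_of_lt hp1
  have hn1 : n' / p = 1 := by
    apply Nat.div_eq_of_lt_le <;> omega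
  have r1 := residue L n p δ hLn hp hpL (by omega)
  have r2 := residue L n' p δ' hL' hp hpL (by omega)
  have hA : AA L n δ = AA L n' δ' := by
    have e1 := AA_eq L n δ hLn
    have e2 := AA_eq L n' δ' hL'
    rw [heq, ← e2] at e1
    exact_mod_cast e1
  rw [hn0, hLp] at r1
  rw [hn1, hLp, ← hA] at r2
  have t0 : tt p 0 δ = 0 := by simp [tt]
  have t1 : tt p 1 δ' = δ' p * 840 := by simp [tt]
  rw [t0, mul_zero, sub_zero] at r1
  rw [t1] at r2
  have r3 : (p : ℤ) ∣ (D : ℤ) * (δ' p * 840) := by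
    have := dvd_sub r1 r2
    simpa using this
  have hpp : Prime (p : ℤ) := Nat.prime_iff_prime_int.1 hp
  have h840 : ¬ p ∣ 840 := by
    intro hd
    have h5 : p ∣ 2 ^ 3 * (3 * (5 * 7)) := by norm_num; exact hd
    have hp9 : 8 < p := by omega
    rcases (hp.dvd_mul).1 h5 with h6 | h6
    · have := Nat.le_of_dvd (by norm_num) (hp.dvd_of_dvd_pow h6); omega
    · rcases (hp.dvd_mul).1 h6 with h7 | h7
      · have := Nat.le_of_dvd (by norm_num) h7; omega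
      · rcases (hp.dvd_mul).1 h7 with h8 | h8
        · have := Nat.le_of_dvd (by norm_num) h8; omega
        · have := Nat.le_of_dvd (by norm_num) h8; omega
  rcases hpp.dvd_mul.1 r3 with h4 | h4
  · exact hpD (Int.natCast_dvd_natCast.1 h4)
  · rcases hpp.dvd_mul.1 h4 with h5 | h5
    · have hs := hδ' p hp hp2 hp4
      have hp2' := hp.two_le
      rcases hs with h6 | h6
      · rw [h6] at h5
        have := Int.le_of_dvd (by norm_num) h5
        omega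
      · rw [h6, dvd_neg] at h5
        have := Int.le_of_dvd (by norm_num) h5
        omega
    · exact h840 (by exact_mod_cast h5)

end Pool.Agent.FSS
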