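import Pool.Agent.FSS.B
import Pool.Agent.Helper7.SignedSums

/-!
# Full signs: at most 200000 prime gaps in a window
-/

set_option autoImplicit false

open Finset Filter Topology

namespace Pool.Agent.FSS

/-- The constant `K < 2`. -/
noncomputable def K0 : ℝ := 1.99999

lemma K0_ge : 1 ≤ K0 := by unfold K0; norm_num

lemma log_K0 : Real.log 2 - 6 / 1000000 ≤ Real.log K0 := by
  have h1 : K0 = 2 * 0.999995 := by unfold K0; norm_num
  rw [h1, Real.log_mul (by norm_num) (by norm_num)]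
  have h2 := Real.one_sub_inv_le_log_of_pos (show (0 : ℝ) < 0.999995 by norm_num)
  have h3 : (-(6 / 1000000) : ℝ) ≤ 1 - (0.999995)⁻¹ := by norm_num
  linarith

/-- Chebyshev's function on natural numbers. -/
noncomputable def th (k : ℕ) : ℝ := ∑ p ∈ (Ioc 0 k).filter Nat.Prime, Real.log p

lemma th_eq (k : ℕ) : th k = Chebyshev.theta (k : ℝ) := by
  rw [Chebyshev.theta, Nat.floor_natCast]; rfl

lemma th_sub (a b : ℕ) (h : a ≤ b) :
    ∑ p ∈ (Ioc a b).filter Nat.Prime, Real.log p = th b - th a := by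
  unfold th
  rw [eq_sub_iff_add_eq, ← Finset.sum_union]
  · refine Finset.sum_congr ?_ fun _ _ => rfl
    ext p
    simp only [mem_union, mem_filter, Finset.mem_Ioc]
    constructor
    · rintro (⟨⟨h1, h2⟩, h3⟩ | ⟨⟨h1, h2⟩, h3⟩)
      · exact ⟨⟨by omega, h2⟩, h3⟩
      · exact ⟨⟨h1, by omega⟩, h3⟩
    · rintro ⟨⟨h1, h2⟩, h3⟩
      by_cases h : a < p
      · exact Or.inl ⟨⟨h, h2⟩, h3⟩
      · exact Or.inr ⟨⟨h1, by omega⟩, h3⟩
  · rw [Finset.disjoint_left]
    intro p h1 h2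
    simp only [mem_filter, Finset.mem_Ioc] at h1 h2
    omega

lemma pnt (η : ℝ) (hη : 0 < η) : ∃ k0 : ℕ, ∀ k : ℕ, k0 ≤ k →
    (1 - η) * k ≤ th k ∧ th k ≤ (1 + η) * k ∧ Real.log (Nat.lcmUpto k) ≤ (1 + η) * k := by
  have h1 := Helper7.Signed.theta_tendsto.comp tendsto_natCast_atTop_atTop
  have h2 := h1.eventually (lt_mem_nhds (show (1 : ℝ) - η < 1 by linarith))
  have h3 := h1.eventually (gt_mem_nhds (show (1 : ℝ) < 1 + η by linarith))
  have h4 := (h2.and h3).and ((Helper7.Signed.lcm_le η hη).and (eventually_gt_atTop 0))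
  obtain ⟨k0, hk0⟩ := eventually_atTop.1 h4
  refine ⟨k0, fun k hk => ?_⟩
  obtain ⟨⟨h5, h6⟩, h7, h8⟩ := hk0 k hk
  have hk' : (0 : ℝ) < k := by exact_mod_cast h8
  simp only [Function.comp_apply] at h5 h6
  rw [lt_div_iff₀ hk'] at h5
  rw [div_lt_iff₀ hk'] at h6
  rw [th_eq]
  exact ⟨h5.le, h6.le, h7⟩

/-- The primes with at most seven multiples. -/
def QQ (N M : ℕ) : Finset ℕ :=
  (Icc 1 7).biUnion fun m => (Ioc (M / (m + 1)) (N / m)).filter Nat.Prime

lemma mem_QQ (N M q : ℕ) (hq : q ∈ QQ N M) : q.Prime ∧ ∃ m, 1 ≤ m ∧ m ≤ 7 ∧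
    ∀ n, N ≤ n → n ≤ M → n / q = m := by
  unfold QQ at hq
  obtain ⟨m, hm, hq⟩ := Finset.mem_biUnion.1 hq
  obtain ⟨hm1, hm2⟩ := Finset.mem_Icc.1 hm
  obtain ⟨hq1, hq2⟩ := Finset.mem_filter.1 hq
  obtain ⟨hq3, hq4⟩ := Finset.mem_Ioc.1 hq1
  refine ⟨hq2, m, hm1, hm2, fun n h1 h2 => ?_⟩
  rw [Nat.div_lt_iff_lt_mul (by omega)] at hq3
  rw [Nat.le_div_iff_mul_le (by omega)] at hq4
  apply Nat.div_eq_of_lt_le
  · rw [mul_comm]; omega
  · calc n ≤ M := h2
      _ < q * (m + 1) := hq3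
      _ = (m + 1) * q := mul_comm _ _

lemma sum_QQ (N M : ℕ) (hN : 8 * M ≤ 9 * N) (hNM : N ≤ M) (hN2 : 1000 ≤ N) :
    ∑ q ∈ QQ N M, Real.log q / cc (N / q) =
      ∑ m ∈ Icc 1 7, (th (N / m) - th (M / (m + 1))) / cc m := by
  unfold QQ
  rw [Finset.sum_biUnion]
  · refine Finset.sum_congr rfl fun m hm => ?_
    obtain ⟨hm1, hm2⟩ := Finset.mem_Icc.1 hm
    have hle : M / (m + 1) ≤ N / m := by
      rw [Nat.le_div_iff_mul_le (by omega)]
      have h1 : M / (m + 1) * (m + 1) ≤ M := Nat.div_mul_le_self _ _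
      have h2 : M / (m + 1) * 1 ≥ 0 := Nat.zero_le _
      have h3 : M / 8 ≤ M / (m + 1) := Nat.div_le_div_left (by omega) (by omega)
      have h4 : M / (m + 1) * m + M / (m + 1) ≤ M := by
        calc M / (m + 1) * m + M / (m + 1) = M / (m + 1) * (m + 1) := by ring
          _ ≤ M := h1
      omega
    rw [← th_sub _ _ hle, Finset.sum_div]
    refine Finset.sum_congr rfl fun q hq => ?_
    have hq' : q ∈ QQ N M := by
      unfold QQ
      exact Finset.mem_biUnion.2 ⟨m, hm, hq⟩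
    obtain ⟨hq1, hq2⟩ := Finset.mem_filter.1 hq
    obtain ⟨hq3, hq4⟩ := Finset.mem_Ioc.1 hq1
    have hqm : N / q = m := by
      rw [Nat.div_lt_iff_lt_mul (by omega)] at hq3
      rw [Nat.le_div_iff_mul_le (by omega)] at hq4
      apply Nat.div_eq_of_lt_le
      · rw [mul_comm]; exact hq4
      · calc N ≤ M := hNM
          _ < q * (m + 1) := hq3
          _ = (m + 1) * q := mul_comm _ _
    rw [hqm]
  · intro m hm m' hm' hne
    rw [Function.onFun, Finset.disjoint_left]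
    intro q hq hq'
    apply hne
    obtain ⟨hm1, hm2⟩ := Finset.mem_Icc.1 (Finset.mem_coe.1 hm)
    obtain ⟨hm1', hm2'⟩ := Finset.mem_Icc.1 (Finset.mem_coe.1 hm')
    obtain ⟨hq1, hq2⟩ := Finset.mem_filter.1 hq
    obtain ⟨hq3, hq4⟩ := Finset.mem_Ioc.1 hq1
    obtain ⟨hq1', hq2'⟩ := Finset.mem_filter.1 hq'
    obtain ⟨hq3', hq4'⟩ := Finset.mem_Ioc.1 hq1'
    have e1 : N / q = m := by
      rw [Nat.div_lt_iff_lt_mul (by omega)] at hq3
      rw [Nat.le_div_iff_mul_le (by omega)] at hq4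
      apply Nat.div_eq_of_lt_le
      · rw [mul_comm]; exact hq4
      · calc N ≤ M := hNM
          _ < q * (m + 1) := hq3
          _ = (m + 1) * q := mul_comm _ _
    have e2 : N / q = m' := by
      rw [Nat.div_lt_iff_lt_mul (by omega)] at hq3'
      rw [Nat.le_div_iff_mul_le (by omega)] at hq4'
      apply Nat.div_eq_of_lt_le
      · rw [mul_comm]; exact hq4'
      · calc N ≤ M := hNM
          _ < q * (m' + 1) := hq3'
          _ = (m' + 1) * q := mul_comm _ _
    rw [← e1, e2]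

/-- The gain of the larger sieve over the size of the numerators. -/
lemma gain : ∃ N0 : ℕ, ∀ N M : ℕ, N0 ≤ N → N ≤ M → (M : ℝ) ≤ (1 + 1 / 1000000) * N →
    (1 / 100000 : ℝ) * N ≤ ∑ q ∈ QQ N M, Real.log q / cc (N / q) -
      (Real.log 2 + Real.log (Nat.lcmUpto M) - N * Real.log K0) - 1 / 1000000 * M ∧
    ∑ q ∈ QQ N M, Real.log q ≤ (1 + 1 / 1000000) * N := by
  obtain ⟨k0, hk0⟩ := pnt (1 / 1000000) (by norm_num)
  refine ⟨max (10 * k0) 10000000, fun N M hN hNM hM => ?_⟩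
  have hN1 : 10 * k0 ≤ N := le_trans (le_max_left _ _) hN
  have hN2 : 10000000 ≤ N := le_trans (le_max_right _ _) hN
  have hN2' : (10000000 : ℝ) ≤ N := by exact_mod_cast hN2
  have hNM' : (N : ℝ) ≤ M := by exact_mod_cast hNM
  constructor
  · have h89 : 8 * M ≤ 9 * N := by
      have : (8 * M : ℝ) ≤ 9 * N := by linarith
      exact_mod_cast this
    rw [sum_QQ N M h89 hNM (by omega)]
    have hlow : ∀ m : ℕ, 1 ≤ m → m ≤ 7 →
        (1 - 1 / 1000000) * ((N : ℝ) / m - 1) - (1 + 1 / 1000000) * ((M : ℝ) / (m + 1)) ≤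
          th (N / m) - th (M / (m + 1)) := by
      intro m hm1 hm2
      have hm0 : (0 : ℝ) < m := by exact_mod_cast (by omega : 0 < m)
      have a1 : k0 ≤ N / m := by
        rw [Nat.le_div_iff_mul_le (by omega)]
        calc k0 * m ≤ k0 * 7 := Nat.mul_le_mul_left _ hm2
          _ ≤ N := by omega
      have a2 : k0 ≤ M / (m + 1) := by
        rw [Nat.le_div_iff_mul_le (by omega)]
        calc k0 * (m + 1) ≤ k0 * 8 := Nat.mul_le_mul_left _ (by omega)
          _ ≤ M := by omega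
      have b1 := (hk0 _ a1).1
      have b2 := (hk0 _ a2).2.1
      have c1 : (N : ℝ) / m - 1 ≤ ((N / m : ℕ) : ℝ) := by
        have : (N : ℝ) < ((N / m : ℕ) : ℝ) * m + m := by
          have h := Nat.lt_div_mul_add (a := N) (b := m) (by omega)
          exact_mod_cast h
        rw [sub_le_iff_le_add, div_le_iff₀ hm0]
        linarith
      have c2 : ((M / (m + 1) : ℕ) : ℝ) ≤ (M : ℝ) / (m + 1) := by
        have := Nat.cast_div_le (α := ℝ) (m := M) (n := m + 1)
        push_cast at this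
        exact this
      have d1 : (1 - 1 / 1000000 : ℝ) * ((N : ℝ) / m - 1) ≤ (1 - 1 / 1000000) * ((N / m : ℕ) : ℝ) :=
        mul_le_mul_of_nonneg_left c1 (by norm_num)
      have d2 : (1 + 1 / 1000000 : ℝ) * ((M / (m + 1) : ℕ) : ℝ) ≤
          (1 + 1 / 1000000) * ((M : ℝ) / (m + 1)) := mul_le_mul_of_nonneg_left c2 (by norm_num)
      linarith
    have hL := (hk0 M (by omega)).2.2
    have hNK : (N : ℝ) * (Real.log 2 - 6 / 1000000) ≤ N * Real.log K0 :=
      mul_le_mul_of_nonneg_left log_K0 (by positivity)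
    have e1 := hlow 1 (by norm_num) (by norm_num)
    have e2 := hlow 2 (by norm_num) (by norm_num)
    have e3 := hlow 3 (by norm_num) (by norm_num)
    have e4 := hlow 4 (by norm_num) (by norm_num)
    have e5 := hlow 5 (by norm_num) (by norm_num)
    have e6 := hlow 6 (by norm_num) (by norm_num)
    have e7 := hlow 7 (by norm_num) (by norm_num)
    push_cast at e1 e2 e3 e4 e5 e6 e7
    have hsum : ∑ m ∈ Icc 1 7, (th (N / m) - th (M / (m + 1))) / (cc m : ℝ) =
        (th (N / 1) - th (M / (1 + 1))) / 2 + (th (N / 2) - th (M / (2 + 1))) / 4 +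
        (th (N / 3) - th (M / (3 + 1))) / 8 + (th (N / 4) - th (M / (4 + 1))) / 16 +
        (th (N / 5) - th (M / (5 + 1))) / 32 + (th (N / 6) - th (M / (6 + 1))) / 52 +
        (th (N / 7) - th (M / (7 + 1))) / 104 := by
      have : Icc 1 7 = ({1, 2, 3, 4, 5, 6, 7} : Finset ℕ) := by decide
      rw [this]
      simp only [Finset.sum_insert, Finset.mem_insert, Finset.mem_singleton, Finset.sum_singleton,
        cc]
      norm_num
      ring
    rw [hsum]
    have hl2 := Real.log_two_gt_d9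
    have hl2' := Real.log_two_lt_d9
    have hNl : (N : ℝ) * 0.6931471803 ≤ N * Real.log 2 :=
      mul_le_mul_of_nonneg_left hl2.le (by positivity)
    linarith
  · have h1 : ∑ q ∈ QQ N M, Real.log q ≤ th N := by
      unfold th
      refine Finset.sum_le_sum_of_subset_of_nonneg ?_ fun _ _ _ => Real.log_natCast_nonneg _
      intro q hq
      unfold QQ at hq
      obtain ⟨m, hm, hq⟩ := Finset.mem_biUnion.1 hq
      obtain ⟨hq1, hq2⟩ := Finset.mem_filter.1 hq
      obtain ⟨hq3, hq4⟩ := Finset.mem_Ioc.1 hq1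
      exact Finset.mem_filter.2 ⟨Finset.mem_Ioc.2 ⟨hq2.pos, hq4.trans (Nat.div_le_self _ _)⟩, hq2⟩
    exact h1.trans (hk0 N (by omega)).2.1

end Pool.Agent.FSS
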