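import Pool.Agent.FSS.C

/-!
# Two values per index: at most `C log x` small sums
-/

set_option autoImplicit false

open Finset Filter Topology

namespace Pool.Agent.FSS

/-- The subset sums of `840/1, …, 840/m`. -/
def UU : ℕ → Finset ℤ
  | 0 => {0}
  | m + 1 => UU m ∪ (UU m).image (fun x => x + 840 / ((m : ℤ) + 1))

lemma card_UU_succ (m : ℕ) : (UU (m + 1)).card ≤ 2 * (UU m).card := by
  rw [UU]
  refine (Finset.card_union_le _ _).trans ?_
  have h1 := Finset.card_image_le (s := UU m) (f := fun x => x + 840 / ((m : ℤ) + 1))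
  omega

lemma card_UU6 : (UU 6).card = 52 := by decide +kernel

lemma card_UU (m : ℕ) (hm : m ≤ 7) : (UU m).card ≤ cc m := by
  have h0 : (UU 0).card = 1 := rfl
  have h1 := card_UU_succ 0
  have h2 := card_UU_succ 1
  have h3 := card_UU_succ 2
  have h4 := card_UU_succ 3
  have h5 := card_UU_succ 4
  have h6 := card_UU6
  have h7 := card_UU_succ 6
  norm_num at h1 h2 h3 h4 h5 h7
  interval_cases m <;> simp only [cc] <;> omega

lemma mem_UU (e : ℕ → ℤ) (m : ℕ) (he : ∀ j, 1 ≤ j → j ≤ m → e j = 0 ∨ e j = 1) :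
    ∑ j ∈ Icc 1 m, e j * (840 / (j : ℤ)) ∈ UU m := by
  induction m with
  | zero => simp [UU]
  | succ m ih =>
    rw [Finset.sum_Icc_succ_top (by omega), UU, Finset.mem_union]
    have h := ih (fun j h1 h2 => he j h1 (by omega))
    rcases he (m + 1) (by omega) le_rfl with h1 | h1
    · left
      rw [h1, zero_mul, add_zero]
      exact h
    · right
      refine Finset.mem_image.2 ⟨_, h, ?_⟩
      rw [h1]; push_cast; ring

/-- The digit sums with two permitted values per digit. -/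
lemma mem_two (a s : ℕ → ℤ) (c : ℤ) (m : ℕ)
    (hs : ∀ j, 1 ≤ j → j ≤ m → s j = a j ∨ s j = a j + c) :
    ∑ j ∈ Icc 1 m, s j * (840 / (j : ℤ)) ∈
      (UU m).image (fun x => ∑ j ∈ Icc 1 m, a j * (840 / (j : ℤ)) + c * x) := by
  classical
  set e : ℕ → ℤ := fun j => if s j = a j then 0 else 1 with he
  refine Finset.mem_image.2 ⟨_, mem_UU e m (fun j _ _ => ?_), ?_⟩
  · simp only [he]
    split_ifs <;> simp
  · rw [Finset.mul_sum, ← Finset.sum_add_distrib]
    refine Finset.sum_congr rfl fun j hj => ?_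
    obtain ⟨h1, h2⟩ := Finset.mem_Icc.1 hj
    by_cases h : s j = a j
    · have : e j = 0 := by simp only [he, if_pos h]
      rw [this, h]; ring
    · have : e j = 1 := by simp only [he, if_neg h]
      have h3 := (hs j h1 h2).resolve_left h
      rw [this, h3]; ring

/-- The largest prime `p ≤ n` does not divide its coefficient. -/
def TopT (n : ℕ) (δ : ℕ → ℤ) : Prop :=
  ∀ p : ℕ, p.Prime → p ≤ n → (∀ r : ℕ, r.Prime → r ≤ n → r ≤ p) → ¬ (p : ℤ) ∣ δ p

/-- The exceptional indices: `k = q j` with a prime `q > n / 8` and a coefficient that is neither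
`a k` nor `a k + c q`. -/
def ExcT (a c : ℕ → ℤ) (n : ℕ) (δ : ℕ → ℤ) : Set ℕ :=
  {k : ℕ | 1 ≤ k ∧ k ≤ n ∧ ∃ q : ℕ, q.Prime ∧ q ∣ k ∧ n < 8 * q ∧ δ k ≠ a k ∧ δ k ≠ a k + c q}

/-- Two values per index, with few exceptions. -/
def TwoT (a c : ℕ → ℤ) (n : ℕ) (δ : ℕ → ℤ) : Prop :=
  ((ExcT a c n δ).ncard : ℝ) ≤ n / (1000000 * Real.log n)

/-- Sums of different prime gaps are different. -/
lemma S_neT (n n' : ℕ) (δ δ' : ℕ → ℤ) (h : n < n') (h16 : 16 ≤ n')
    (hpi : Nat.primeCounting n ≠ Nat.primeCounting n') (hδ' : TopT n' δ') :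
    S n δ ≠ S n' δ' := by
  classical
  intro heq
  obtain ⟨p, hp, hp1, hp2, hp3, hp4⟩ := exists_top n n' h (by omega) hpi
  set D := ∏ k ∈ (Icc 1 n').erase p, k with hD
  have hpD : ¬ p ∣ D := by
    intro hd
    obtain ⟨k, hk, hk2⟩ := (hp.prime.dvd_finsetProd_iff _).1 hd
    obtain ⟨hk3, hk4⟩ := Finset.mem_erase.1 hk
    obtain ⟨hk5, hk6⟩ := Finset.mem_Icc.1 hk4
    obtain ⟨c, rfl⟩ := hk2
    have hc1 : c ≠ 1 := by rintro rfl; simp at hk3
    have hc0 : c ≠ 0 := by rintro rfl; simp at hk5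
    have hc2 : 2 ≤ c := by omega
    have : p * 2 ≤ p * c := Nat.mul_le_mul_left _ hc2
    omega
  set L := D * p with hL
  have hmem : p ∈ Icc 1 n' := Finset.mem_Icc.2 ⟨hp.one_le, hp2⟩
  have hL' : ∀ k ∈ Icc 1 n', k ∣ L := by
    intro k hk
    by_cases hkp : k = p
    · subst hkp; exact dvd_mul_left _ _
    · exact Dvd.dvd.mul_right (Finset.dvd_prod_of_mem (fun k => k) (Finset.mem_erase.2 ⟨hkp, hk⟩)) _
  have hLn : ∀ k ∈ Icc 1 n, k ∣ L := by
    intro k hk
    obtain ⟨h1, h2⟩ := Finset.mem_Icc.1 hk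
    exact hL' k (Finset.mem_Icc.2 ⟨h1, by omega⟩)
  have hpL : p ∣ L := dvd_mul_left _ _
  have hLp : L / p = D := Nat.mul_div_cancel _ hp.pos
  have hn0 : n / p = 0 := Nat.div_eq_of_lt hp1
  have hn1 : n' / p = 1 := by
    apply Nat.div_eq_of_lt_le <;> omega
  have r1 := residue L n p δ hLn hp hpL (by omega)
  have r2 := residue L n' p δ' hL' hp hpL (by omega)
  have hA : AA L n δ = AA L n' δ' := by
    have e1 := AA_eq L n δ hLn
    have e2 := AA_eq L n' δ' hL'
    rw [heq, ← e2] at e1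
    exact_mod_cast e1
  rw [hn0, hLp] at r1
  rw [hn1, hLp, ← hA] at r2
  have t0 : tt p 0 δ = 0 := by simp [tt]
  have t1 : tt p 1 δ' = δ' p * 840 := by simp [tt]
  rw [t0, mul_zero, sub_zero] at r1
  rw [t1] at r2
  have r3 : (p : ℤ) ∣ (D : ℤ) * (δ' p * 840) := by
    have := dvd_sub r1 r2
    simpa using this
  have hpp : Prime (p : ℤ) := Nat.prime_iff_prime_int.1 hp
  have h840 : ¬ p ∣ 840 := by
    intro hd
    have h5 : p ∣ 2 ^ 3 * (3 * (5 * 7)) := by norm_num; exact hd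
    have hp9 : 8 < p := by omega
    rcases (hp.dvd_mul).1 h5 with h6 | h6
    · have := Nat.le_of_dvd (by norm_num) (hp.dvd_of_dvd_pow h6); omega
    · rcases (hp.dvd_mul).1 h6 with h7 | h7
      · have := Nat.le_of_dvd (by norm_num) h7; omega
      · rcases (hp.dvd_mul).1 h7 with h8 | h8
        · have := Nat.le_of_dvd (by norm_num) h8; omega
        · have := Nat.le_of_dvd (by norm_num) h8; omega
  rcases hpp.dvd_mul.1 r3 with h4 | h4
  · exact hpD (Int.natCast_dvd_natCast.1 h4)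
  · rcases hpp.dvd_mul.1 h4 with h5 | h5
    · exact hδ' p hp hp2 hp4 h5
    · exact h840 (by exact_mod_cast h5)

/-- The coefficients at the first `m` multiples of `q` have their two values. -/
def OkT (a c : ℕ → ℤ) (δ : ℕ → ℤ) (q m : ℕ) : Prop :=
  ∀ j, 1 ≤ j → j ≤ m → (δ (q * j) = a (q * j) ∨ δ (q * j) = a (q * j) + c q)

open scoped Classical in
/-- The exceptional primes of a sign vector. -/
lemma bad_leT (a c : ℕ → ℤ) (N M n : ℕ) (δ : ℕ → ℤ) (hN : 1000 ≤ N) (h1 : N ≤ n) (h2 : n ≤ M)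
    (hM : (M : ℝ) ≤ (1 + 1 / 1000000) * N) (hδ : TwoT a c n δ) :
    ∑ q ∈ (QQ N M).filter (fun q => ¬ OkT a c δ q (N / q)), Real.log q ≤ 1 / 1000000 * M := by
  set F := (QQ N M).filter (fun q => ¬ OkT a c δ q (N / q)) with hF
  set E := (Icc 1 n).filter (fun k => ∃ q : ℕ, q.Prime ∧ q ∣ k ∧ n < 8 * q ∧ δ k ≠ a k ∧
    δ k ≠ a k + c q) with hE
  have hEset : ExcT a c n δ = ↑E := by
    ext k
    simp only [ExcT, Set.mem_ofPred_eq, hE, Finset.coe_filter, Finset.mem_Icc]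
    tauto
  have hEc : (E.card : ℝ) ≤ n / (1000000 * Real.log n) := by
    have := hδ
    unfold TwoT at this
    rwa [hEset, Set.ncard_coe_finset] at this
  have hq : ∀ q ∈ F, ∃ j, 1 ≤ j ∧ j ≤ N / q ∧ δ (q * j) ≠ a (q * j) ∧ δ (q * j) ≠ a (q * j) + c q := by
    intro q hq
    have := (Finset.mem_filter.1 hq).2
    unfold OkT at this
    push Not at this
    exact this
  choose! jj hj1 hj2 hj3 hj4 using hq
  have hprop : ∀ q ∈ F, q.Prime ∧ N / q ≤ 7 ∧ n < 8 * q ∧ q ≤ N ∧ 8 < q := by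
    intro q hq
    obtain ⟨hqp, m, hm1, hm2, hm3⟩ := mem_QQ N M q (Finset.mem_filter.1 hq).1
    have hNq := hm3 N le_rfl (h1.trans h2)
    have hnq := hm3 n h1 h2
    refine ⟨hqp, by omega, ?_, ?_, ?_⟩
    · have := Nat.lt_succ_of_le (le_of_eq hnq)
      rw [Nat.div_lt_iff_lt_mul hqp.pos] at this
      calc n < m.succ * q := this
        _ ≤ 8 * q := Nat.mul_le_mul_right _ (by omega)
    · by_contra hcon
      rw [Nat.div_eq_of_lt (by omega)] at hNq
      omega
    · by_contra hcon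
      have h8 : N / 8 ≤ N / q := Nat.div_le_div_left (by omega) hqp.pos
      omega
  have hcard : F.card ≤ E.card := by
    refine Finset.card_le_card_of_injOn (fun q => q * jj q) ?_ ?_
    · intro q hq
      have hq' := Finset.mem_coe.1 hq
      obtain ⟨hqp, h7, h8, h9, h10⟩ := hprop q hq'
      have a1 := hj1 q hq'
      have a2 := hj2 q hq'
      have a3 : q * jj q ≤ N := by
        rw [Nat.le_div_iff_mul_le hqp.pos, mul_comm] at a2
        exact a2
      exact Finset.mem_coe.2 (Finset.mem_filter.2 ⟨Finset.mem_Icc.2 ⟨Nat.mul_pos hqp.pos a1,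
        a3.trans h1⟩, ⟨q, hqp, dvd_mul_right _ _, h8, hj3 q hq', hj4 q hq'⟩⟩)
    · intro q hq q' hq' heq
      have hqa := Finset.mem_coe.1 hq
      have hqb := Finset.mem_coe.1 hq'
      obtain ⟨hqp, h7, h8, h9, h10⟩ := hprop q hqa
      obtain ⟨hqp', h7', h8', h9', h10'⟩ := hprop q' hqb
      have heq' : q * jj q = q' * jj q' := heq
      have hd : q ∣ q' * jj q' := heq' ▸ dvd_mul_right q (jj q)
      rcases hqp.dvd_mul.1 hd with h | h
      · exact (Nat.prime_dvd_prime_iff_eq hqp hqp').1 h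
      · exfalso
        have b1 := Nat.le_of_dvd (hj1 q' hqb) h
        have b2 := hj2 q' hqb
        omega
  have hlogn : 0 < Real.log n := Real.log_pos (by exact_mod_cast (by omega : 1 < n))
  calc ∑ q ∈ F, Real.log q ≤ ∑ q ∈ F, Real.log n := by
        refine Finset.sum_le_sum fun q hq => ?_
        obtain ⟨hqp, h7, h8, h9, h10⟩ := hprop q hq
        apply Real.log_le_log (by exact_mod_cast hqp.pos)
        exact_mod_cast h9.trans h1
    _ = F.card * Real.log n := by rw [Finset.sum_const, nsmul_eq_mul]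
    _ ≤ E.card * Real.log n := mul_le_mul_of_nonneg_right (by exact_mod_cast hcard) hlogn.le
    _ ≤ n / (1000000 * Real.log n) * Real.log n := mul_le_mul_of_nonneg_right hEc hlogn.le
    _ = 1 / 1000000 * n := by field_simp
    _ ≤ 1 / 1000000 * M := by
        have : (n : ℝ) ≤ M := by exact_mod_cast h2
        linarith

/-- At most 200000 different small sums in a window. -/
theorem windowG {ι : Type} : ∃ N0 : ℕ, ∀ a c : ℕ → ℤ, ∀ N M : ℕ, N0 ≤ N → N ≤ M →
    (M : ℝ) ≤ (1 + 1 / 1000000) * N →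
    ∀ (T : Finset ι) (nn : ι → ℕ) (dd : ι → ℕ → ℤ), (∀ v ∈ T, N ≤ nn v) → (∀ v ∈ T, nn v ≤ M) →
    (∀ v ∈ T, TwoT a c (nn v) (dd v)) → (∀ v ∈ T, |S (nn v) (dd v)| < (K0 ^ nn v)⁻¹) →
    (∀ v ∈ T, ∀ w ∈ T, v ≠ w → S (nn v) (dd v) ≠ S (nn w) (dd w)) → T.card ≤ 200000 := by
  classical
  obtain ⟨N1, hN1⟩ := gain
  refine ⟨max N1 1000, fun a c N M hN hNM hM T nn dd hn1 hn2 hd1 hd2 hSne => ?_⟩
  have hNa : N1 ≤ N := le_trans (le_max_left _ _) hN
  have hNb : 1000 ≤ N := le_trans (le_max_right _ _) hN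
  obtain ⟨hg1, hg2⟩ := hN1 N M hNa hNM hM
  set L := Nat.lcmUpto M with hL
  have hLpos : (0 : ℝ) < L := by exact_mod_cast Nat.lcmUpto_pos M
  have hdvd : ∀ k, 1 ≤ k → k ≤ M → k ∣ L := fun k h1 h2 =>
    Finset.dvd_lcm (f := id) (Finset.mem_Icc.2 ⟨h1, h2⟩)
  have hdvd' : ∀ v ∈ T, ∀ k ∈ Icc 1 (nn v), k ∣ L := fun v hv k hk => by
    obtain ⟨h1, h2⟩ := Finset.mem_Icc.1 hk
    exact hdvd k h1 (h2.trans (hn2 v hv))
  set A : ι → ℤ := fun v => AA L (nn v) (dd v) with hA
  have hAS : ∀ v ∈ T, (A v : ℝ) = L * S (nn v) (dd v) := fun v hv => AA_eq L _ _ (hdvd' v hv)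
  have hAne : ∀ v ∈ T, ∀ w ∈ T, v ≠ w → A v ≠ A w := by
    intro v hv w hw hvw h
    apply hSne v hv w hw hvw
    have h1 : (A v : ℝ) = A w := by rw [h]
    rw [hAS v hv, hAS w hw] at h1
    exact mul_left_cancel₀ hLpos.ne' h1
  have hK1 := K0_ge
  have hKN : (0 : ℝ) < K0 ^ N := by positivity
  have hAb : ∀ v ∈ T, |(A v : ℝ)| ≤ L * (K0 ^ N)⁻¹ := by
    intro v hv
    rw [hAS v hv, abs_mul, abs_of_pos hLpos]
    apply mul_le_mul_of_nonneg_left _ hLpos.le
    refine (hd2 v hv).le.trans ?_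
    apply inv_anti₀ hKN
    exact pow_le_pow_right₀ hK1 (hn1 v hv)
  set B : ℝ := Real.log 2 + Real.log L - N * Real.log K0 with hB
  have hBB : ∀ v ∈ T, ∀ w ∈ T, v ≠ w → Real.log |((A v - A w : ℤ) : ℝ)| ≤ B := by
    intro v hv w hw hvw
    have h0 : (0 : ℝ) < |((A v - A w : ℤ) : ℝ)| := by
      apply abs_pos.2
      exact_mod_cast sub_ne_zero.2 (hAne v hv w hw hvw)
    have h1 : |((A v - A w : ℤ) : ℝ)| ≤ 2 * (L * (K0 ^ N)⁻¹) := by
      push_cast
      have := abs_sub (A v : ℝ) (A w : ℝ)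
      have h2 := hAb v hv
      have h3 := hAb w hw
      linarith
    have h2 : Real.log (2 * (L * (K0 ^ N)⁻¹)) = B := by
      rw [Real.log_mul (by norm_num) (by positivity), Real.log_mul hLpos.ne' (by positivity),
        Real.log_inv, Real.log_pow, hB]
      ring
    rw [← h2]
    exact Real.log_le_log h0 h1
  set G : ℕ → Finset ι := fun q => T.filter (fun v => OkT a c (dd v) q (N / q)) with hG
  have hsv := sieve T A B hAne hBB (QQ N M) (fun q hq => (mem_QQ N M q hq).1)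
    (fun q => cc (N / q)) (fun q hq => by
      obtain ⟨hqp, m, hm1, hm2, hm3⟩ := mem_QQ N M q hq
      have hNq := hm3 N le_rfl hNM
      simp only [hNq]
      exact cc_ge m hm1) G (fun q _ => Finset.filter_subset _ _)
    (fun q v => tt q (N / q) (dd v))
    (fun q hq => by
      obtain ⟨hqp, m, hm1, hm2, hm3⟩ := mem_QQ N M q hq
      have hNq := hm3 N le_rfl hNM
      simp only [hG, hNq]
      refine le_trans (Finset.card_le_card (t := (UU m).image (fun x =>
        ∑ j ∈ Icc 1 m, a (q * j) * (840 / (j : ℤ)) + c q * x)) ?_)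
        (Finset.card_image_le.trans (card_UU m hm2))
      intro y hy
      obtain ⟨v, hv, rfl⟩ := Finset.mem_image.1 hy
      exact mem_two (fun j => a (q * j)) (fun j => dd v (q * j)) (c q) m
        (Finset.mem_filter.1 hv).2)
    (fun q hq v hv w hw h => by
      have hv := (Finset.mem_filter.1 hv).1
      have hw := (Finset.mem_filter.1 hw).1
      obtain ⟨hqp, m, hm1, hm2, hm3⟩ := mem_QQ N M q hq
      have hNq := hm3 N le_rfl hNM
      simp only [hNq] at h
      have hvq := hm3 (nn v) (hn1 v hv) (hn2 v hv)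
      have hwq := hm3 (nn w) (hn1 w hw) (hn2 w hw)
      have hMq := hm3 M hNM le_rfl
      have hqM : q ≤ M := by
        by_contra hcon
        rw [Nat.div_eq_of_lt (by omega)] at hMq
        omega
      have hqL : q ∣ L := hdvd q hqp.one_le hqM
      have r1 := residue L (nn v) q (dd v) (hdvd' v hv) hqp hqL (by omega)
      have r2 := residue L (nn w) q (dd w) (hdvd' w hw) hqp hqL (by omega)
      rw [hvq, h] at r1
      rw [hwq] at r2
      have r3 : (q : ℤ) ∣ 840 * (A v - A w) := by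
        have := dvd_sub r1 r2
        have e : 840 * AA L (nn v) (dd v) - ((L / q : ℕ) : ℤ) * tt q m (dd w) -
            (840 * AA L (nn w) (dd w) - ((L / q : ℕ) : ℤ) * tt q m (dd w)) =
            840 * (A v - A w) := by
          simp only [hA]; ring
        rwa [e] at this
      have hqpp : Prime (q : ℤ) := Nat.prime_iff_prime_int.1 hqp
      rcases hqpp.dvd_mul.1 r3 with h4 | h4
      · exfalso
        have h5 : q ∣ 840 := by exact_mod_cast h4
        have hq8 : 8 < q := by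
          have h7 : M / q ≤ 7 := by omega
          by_contra hcon
          have h8 : M / 8 ≤ M / q := Nat.div_le_div_left (by omega) hqp.pos
          omega
        have h6 : q ∣ 2 ^ 3 * (3 * (5 * 7)) := by norm_num; exact h5
        rcases (hqp.dvd_mul).1 h6 with h6 | h6
        · have := Nat.le_of_dvd (by norm_num) (hqp.dvd_of_dvd_pow h6); omega
        · rcases (hqp.dvd_mul).1 h6 with h7 | h7
          · have := Nat.le_of_dvd (by norm_num) h7; omega
          · rcases (hqp.dvd_mul).1 h7 with h8 | h8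
            · have := Nat.le_of_dvd (by norm_num) h8; omega
            · have := Nat.le_of_dvd (by norm_num) h8; omega
      · exact h4)
  have hbad : ∑ q ∈ QQ N M, Real.log q * (T.card - (G q).card) ≤ T.card * (1 / 1000000 * M) := by
    have h1 : ∀ q ∈ QQ N M, Real.log q * ((T.card : ℝ) - (G q).card) =
        ∑ v ∈ T, if ¬ OkT a c (dd v) q (N / q) then Real.log q else 0 := by
      intro q _
      rw [← Finset.sum_filter, Finset.sum_const, nsmul_eq_mul, mul_comm]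
      congr 1
      have h2 := Finset.card_filter_add_card_filter_not (s := T) (fun v => OkT a c (dd v) q (N / q))
      have h3 : (T.card : ℝ) = (G q).card +
          ((T.filter (fun v => ¬ OkT a c (dd v) q (N / q))).card : ℝ) := by
        rw [← h2]; push_cast; rfl
      rw [h3]; ring
    rw [Finset.sum_congr rfl h1, Finset.sum_comm, ← nsmul_eq_mul]
    refine Finset.sum_le_card_nsmul _ _ _ fun v hv => ?_
    rw [← Finset.sum_filter]
    exact bad_leT a c N M (nn v) (dd v) hNb (hn1 v hv) (hn2 v hv) hM (hd1 v hv)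
  by_contra hcon
  push Not at hcon
  have hr : (200000 : ℝ) < T.card := by exact_mod_cast hcon
  set r : ℝ := (T.card : ℝ) with hrdef
  set W : ℝ := ∑ q ∈ QQ N M, Real.log q / cc (N / q) with hW
  set V : ℝ := ∑ q ∈ QQ N M, Real.log q with hV
  have hB0 : 0 ≤ B := by
    have h1 : 1 < T.card := by omega
    obtain ⟨v, hv, w, hw, hvw⟩ := Finset.one_lt_card.1 h1
    refine le_trans ?_ (hBB v hv w hw hvw)
    apply Real.log_nonneg
    have h2 : (1 : ℤ) ≤ |A v - A w| := Int.one_le_abs (sub_ne_zero.2 (hAne v hv w hw hvw))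
    exact_mod_cast h2
  have hNpos : (0 : ℝ) < N := by
    have : 0 < N := by omega
    exact_mod_cast this
  have hrpos : 0 < r := by linarith
  have hbad2 := mul_le_mul_of_nonneg_left hbad hrpos.le
  have h1 : r * (r * W - V - r * (1 / 1000000 * M)) ≤ r * ((r - 1) * B) := by
    have h0 : r ^ 2 * W - r * V - r * ∑ q ∈ QQ N M, Real.log q * (T.card - (G q).card) ≤
      r * (r - 1) * B := hsv
    have e1 : r * (r * W - V - r * (1 / 1000000 * M)) =
      r ^ 2 * W - r * V - r * (r * (1 / 1000000 * M)) := by ring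
    have e2 : r * ((r - 1) * B) = r * (r - 1) * B := by ring
    rw [e1, e2]
    linarith
  have h2 : r * W - V - r * (1 / 1000000 * M) ≤ (r - 1) * B := le_of_mul_le_mul_left h1 hrpos
  have h3 : r * (W - B - 1 / 1000000 * M) ≤ V := by
    have e1 : r * (W - B - 1 / 1000000 * M) = r * W - r * (1 / 1000000 * M) - r * B := by ring
    have e2 : (r - 1) * B = r * B - B := by ring
    rw [e1]
    linarith
  have h4 : 1 / 100000 * (N : ℝ) ≤ W - B - 1 / 1000000 * M := hg1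
  have h5 : r * (1 / 100000 * (N : ℝ)) ≤ r * (W - B - 1 / 1000000 * M) :=
    mul_le_mul_of_nonneg_left h4 hrpos.le
  have h6 : 200000 * (1 / 100000 * (N : ℝ)) < r * (1 / 100000 * (N : ℝ)) :=
    mul_lt_mul_of_pos_right hr (by positivity)
  linarith

/-- The objects that occur at a level in `I`. -/
def PR {α : Type} (R : ℕ → α → Prop) (I : Set ℕ) : Set α := {z | ∃ n ∈ I, R n z}

lemma PR_window {α : Type} (R : ℕ → α → Prop) (N M : ℕ)
    (h : ∀ T : Finset α, (∀ z ∈ T, z ∈ PR R (Set.Icc N M)) → T.card ≤ 200000) :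
    (PR R (Set.Icc N M)).Finite ∧ (PR R (Set.Icc N M)).ncard ≤ 200000 := by
  have hfin : (PR R (Set.Icc N M)).Finite := by
    by_contra hinf
    obtain ⟨T, hT1, hT2⟩ := Set.Infinite.exists_subset_card_eq hinf 200001
    have := h T (fun z hz => hT1 (Finset.mem_coe.2 hz))
    omega
  refine ⟨hfin, ?_⟩
  rw [Set.ncard_eq_toFinset_card _ hfin]
  exact h _ (fun z hz => (Set.Finite.mem_toFinset hfin).1 hz)

/-- Counting by windows. -/
theorem count {α : Type} (N0 : ℕ) (hN02 : 1 ≤ N0) (F0 : Set α) (hF0 : F0.Finite) :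
    ∃ C : ℝ, 0 ≤ C ∧ ∀ R : ℕ → α → Prop,
    (∀ N M : ℕ, N0 ≤ N → N ≤ M → (M : ℝ) ≤ (1 + 1 / 1000000) * N →
      ∀ T : Finset α, (∀ z ∈ T, z ∈ PR R (Set.Icc N M)) → T.card ≤ 200000) →
    PR R {n | n < N0} ⊆ F0 → ∀ x : ℕ, 2 ≤ x → (PR R {n | n ≤ x}).Finite ∧
      ((PR R {n | n ≤ x}).ncard : ℝ) ≤ C * Real.log x := by
  classical
  set c0 : ℕ := F0.ncard with hc0
  set ℓ : ℝ := Real.log (1 + 1 / 1000000) with hℓ
  have hℓpos : 0 < ℓ := Real.log_pos (by norm_num)
  have hlog2 : 0 < Real.log 2 := Real.log_pos (by norm_num)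
  refine ⟨((c0 : ℝ) + 200000) / Real.log 2 + 200000 / ℓ, by positivity,
    fun R hN1 hinit x hx => ?_⟩
  have hx' : (2 : ℝ) ≤ x := by exact_mod_cast hx
  have hlogx : Real.log 2 ≤ Real.log x := Real.log_le_log (by norm_num) hx'
  set κ : ℕ → ℕ := fun n => ⌊Real.log n / ℓ⌋₊ with hκ
  set Kx : ℕ := κ x with hKx
  set I : ℕ → Set ℕ := fun k => {n | N0 ≤ n ∧ n ≤ x ∧ κ n = k} with hI
  have hfib : ∀ k, (PR R (I k)).Finite ∧ (PR R (I k)).ncard ≤ 200000 := by
    intro k
    set F : Finset ℕ := (range (x + 1)).filter (fun n => N0 ≤ n ∧ κ n = k) with hF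
    have hIF : ∀ n ∈ I k, n ∈ F := by
      rintro n ⟨h1, h2, h3⟩
      exact Finset.mem_filter.2 ⟨Finset.mem_range.2 (by omega), h1, h3⟩
    by_cases hFe : F.Nonempty
    · set N := F.min' hFe with hN
      set M := F.max' hFe with hM
      obtain ⟨hNG, hNa, hNb⟩ := Finset.mem_filter.1 (F.min'_mem hFe)
      obtain ⟨hMG, hMa, hMb⟩ := Finset.mem_filter.1 (F.max'_mem hFe)
      have hNM : N ≤ M := Finset.min'_le _ _ (Finset.max'_mem _ hFe)
      have hNp' : (0 : ℝ) < N := by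
        have : 0 < N := by omega
        exact_mod_cast this
      have hMp' : (0 : ℝ) < M := by
        have : 0 < M := by omega
        exact_mod_cast this
      have hratio : (M : ℝ) ≤ (1 + 1 / 1000000) * N := by
        have a1 : Real.log M / ℓ < k + 1 := by
          rw [← hMb]; exact Nat.lt_floor_add_one _
        have a2 : (k : ℝ) ≤ Real.log N / ℓ := by
          rw [← hNb]
          apply Nat.floor_le
          apply div_nonneg (Real.log_natCast_nonneg _) hℓpos.le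
        rw [div_lt_iff₀ hℓpos] at a1
        rw [le_div_iff₀ hℓpos] at a2
        have a3 : Real.log M ≤ Real.log ((1 + 1 / 1000000) * N) := by
          rw [Real.log_mul (by norm_num) hNp'.ne', ← hℓ]
          linarith
        exact (Real.log_le_log_iff hMp' (by positivity)).1 a3
      obtain ⟨hf1, hf2⟩ := PR_window R N M (hN1 N M (by omega) hNM hratio)
      have hsub : PR R (I k) ⊆ PR R (Set.Icc N M) := by
        rintro z ⟨n, hn, h⟩
        have := hIF n hn
        exact ⟨n, ⟨Finset.min'_le _ _ this, Finset.le_max' _ _ this⟩, h⟩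
      exact ⟨hf1.subset hsub, (Set.ncard_le_ncard hsub hf1).trans hf2⟩
    · have hemp : PR R (I k) = ∅ := by
        ext z
        simp only [Set.mem_empty_iff_false, iff_false]
        rintro ⟨n, hn, _⟩
        exact hFe ⟨n, hIF n hn⟩
      rw [hemp]
      simp
  have hcover : PR R {n | n ≤ x} ⊆ F0 ∪ ⋃ k ∈ range (Kx + 1), PR R (I k) := by
    rintro z ⟨n, hn, h⟩
    have hnx : n ≤ x := hn
    by_cases h0 : N0 ≤ n
    · right
      simp only [Set.mem_iUnion]
      refine ⟨κ n, ?_, n, ⟨h0, hnx, rfl⟩, h⟩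
      rw [Finset.mem_range, Nat.lt_succ_iff]
      apply Nat.floor_mono
      have h1 : Real.log n ≤ Real.log x :=
        Real.log_le_log (by exact_mod_cast (by omega : 0 < n)) (by exact_mod_cast hnx)
      exact div_le_div_of_nonneg_right h1 hℓpos.le
    · left
      exact hinit ⟨n, by simpa using h0, h⟩
  have hUfin : (⋃ k ∈ range (Kx + 1), PR R (I k)).Finite :=
    Set.Finite.biUnion (Finset.finite_toSet _) fun k _ => (hfib k).1
  have hfin := (hF0.union hUfin).subset hcover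
  refine ⟨hfin, ?_⟩
  have hU : (⋃ k ∈ range (Kx + 1), PR R (I k)).ncard ≤ (Kx + 1) * 200000 := by
    have hgen : ∀ m : ℕ, (⋃ k ∈ range m, PR R (I k)).ncard ≤ m * 200000 := by
      intro m
      induction m with
      | zero => simp
      | succ m ih =>
        rw [Finset.range_add_one, Finset.set_biUnion_insert]
        refine (Set.ncard_union_le _ _).trans ?_
        have := (hfib m).2
        nlinarith
    exact hgen _
  have hcard : (PR R {n | n ≤ x}).ncard ≤ c0 + (Kx + 1) * 200000 :=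
    (Set.ncard_le_ncard hcover (hF0.union hUfin)).trans
      ((Set.ncard_union_le _ _).trans (Nat.add_le_add_left hU _))
  have hcard' : ((PR R {n | n ≤ x}).ncard : ℝ) ≤ c0 + ((Kx : ℝ) + 1) * 200000 := by
    exact_mod_cast hcard
  have hKle : (Kx : ℝ) ≤ Real.log x / ℓ := by
    rw [hKx, hκ]
    apply Nat.floor_le
    exact div_nonneg (by linarith) hℓpos.le
  have h1 : ((c0 : ℝ) + 200000) ≤ ((c0 : ℝ) + 200000) / Real.log 2 * Real.log x := by
    rw [div_mul_eq_mul_div, le_div_iff₀ hlog2]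
    exact mul_le_mul_of_nonneg_left hlogx (by positivity)
  have h2 : 200000 / ℓ * Real.log x = 200000 * (Real.log x / ℓ) := by ring
  rw [add_mul, h2]
  linarith

/-- Small values at the level `n`. -/
def RV (a c : ℕ → ℤ) (n : ℕ) (v : ℝ) : Prop :=
  ∃ δ : ℕ → ℤ, TwoT a c n δ ∧ |S n δ| < (K0 ^ n)⁻¹ ∧ S n δ = v

/-- Small sums at the level `n` with the number of the primes, the largest prime not dividing its
coefficient. -/
def RP (a c : ℕ → ℤ) (n : ℕ) (z : ℕ × ℝ) : Prop :=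
  ∃ δ : ℕ → ℤ, TopT n δ ∧ TwoT a c n δ ∧ |S n δ| < (K0 ^ n)⁻¹ ∧ (Nat.primeCounting n, S n δ) = z

lemma small_mem (N0 n : ℕ) (δ : ℕ → ℤ) (hn : n < N0) (h : |S n δ| < (K0 ^ n)⁻¹) :
    ∃ b : ℤ, b ∈ Set.Icc (-(Nat.lcmUpto N0 : ℤ)) (Nat.lcmUpto N0 : ℤ) ∧
      (b : ℝ) / Nat.lcmUpto N0 = S n δ := by
  have hLpos : (0 : ℝ) < Nat.lcmUpto N0 := by exact_mod_cast Nat.lcmUpto_pos N0
  have hdvd : ∀ k ∈ Icc 1 n, k ∣ Nat.lcmUpto N0 := fun k hk => by
    obtain ⟨h1, h2⟩ := Finset.mem_Icc.1 hk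
    exact Finset.dvd_lcm (f := id) (Finset.mem_Icc.2 ⟨h1, by omega⟩)
  have hA := AA_eq (Nat.lcmUpto N0) n δ hdvd
  refine ⟨AA (Nat.lcmUpto N0) n δ, ?_, ?_⟩
  · have hK : (K0 ^ n)⁻¹ ≤ 1 := inv_le_one_of_one_le₀ (one_le_pow₀ K0_ge)
    have h3 : |(AA (Nat.lcmUpto N0) n δ : ℝ)| ≤ Nat.lcmUpto N0 := by
      rw [hA, abs_mul, abs_of_pos hLpos]
      calc (Nat.lcmUpto N0 : ℝ) * |S n δ| ≤ Nat.lcmUpto N0 * 1 :=
            mul_le_mul_of_nonneg_left (h.le.trans hK) hLpos.le
        _ = Nat.lcmUpto N0 := mul_one _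
    have h4 : |AA (Nat.lcmUpto N0) n δ| ≤ (Nat.lcmUpto N0 : ℤ) := by exact_mod_cast h3
    exact Set.mem_Icc.2 (abs_le.1 h4)
  · rw [hA, mul_div_cancel_left₀ _ hLpos.ne']

theorem mainV : ∃ C : ℝ, 0 ≤ C ∧ ∀ a c : ℕ → ℤ, ∀ x : ℕ, 2 ≤ x →
    (PR (RV a c) {n | n ≤ x}).Finite ∧
      ((PR (RV a c) {n | n ≤ x}).ncard : ℝ) ≤ C * Real.log x := by
  classical
  obtain ⟨N1, hN1⟩ := windowG (ι := ℝ)
  set N0 : ℕ := max N1 1 with hN0def
  obtain ⟨C, hC0, hC⟩ := count N0 (le_max_right _ _)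
    ((fun b : ℤ => (b : ℝ) / Nat.lcmUpto N0) ''
      Set.Icc (-(Nat.lcmUpto N0 : ℤ)) (Nat.lcmUpto N0 : ℤ)) ((Set.finite_Icc _ _).image _)
  refine ⟨C, hC0, fun a c x hx => hC (RV a c) ?_ ?_ x hx⟩
  · intro N M hN hNM hM T hT
    have hT' : ∀ v ∈ T, ∃ n, N ≤ n ∧ n ≤ M ∧ ∃ δ : ℕ → ℤ, TwoT a c n δ ∧
        |S n δ| < (K0 ^ n)⁻¹ ∧ S n δ = v := by
      intro v hv
      obtain ⟨n, hn, δ, h1, h2, h3⟩ := hT v hv
      exact ⟨n, hn.1, hn.2, δ, h1, h2, h3⟩
    choose! nn hn1 hn2 dd hd1 hd2 hd3 using hT'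
    refine hN1 a c N M (le_trans (le_max_left _ _) hN) hNM hM T nn dd hn1 hn2 hd1 hd2 ?_
    intro v hv w hw hvw
    rw [hd3 v hv, hd3 w hw]
    exact hvw
  · rintro v ⟨n, hn, δ, h1, h2, rfl⟩
    obtain ⟨b, hb1, hb2⟩ := small_mem N0 n δ hn h2
    exact ⟨b, hb1, hb2⟩

theorem mainP : ∃ C : ℝ, 0 ≤ C ∧ ∀ a c : ℕ → ℤ, ∀ x : ℕ, 2 ≤ x →
    (PR (RP a c) {n | n ≤ x}).Finite ∧
      ((PR (RP a c) {n | n ≤ x}).ncard : ℝ) ≤ C * Real.log x := by
  classical
  obtain ⟨N1, hN1⟩ := windowG (ι := ℕ × ℝ)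
  set N0 : ℕ := max N1 16 with hN0def
  obtain ⟨C, hC0, hC⟩ := count N0 (le_trans (by norm_num) (le_max_right _ _))
    ((fun y : ℕ × ℤ => (y.1, (y.2 : ℝ) / Nat.lcmUpto N0)) ''
      (Set.Iic (Nat.primeCounting N0) ×ˢ
        Set.Icc (-(Nat.lcmUpto N0 : ℤ)) (Nat.lcmUpto N0 : ℤ)))
    (((Set.finite_Iic _).prod (Set.finite_Icc _ _)).image _)
  refine ⟨C, hC0, fun a c x hx => hC (RP a c) ?_ ?_ x hx⟩
  · intro N M hN hNM hM T hT
    have hN16 : 16 ≤ N := le_trans (le_max_right _ _) hN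
    have hT' : ∀ z ∈ T, ∃ n, N ≤ n ∧ n ≤ M ∧ ∃ δ : ℕ → ℤ, TopT n δ ∧ TwoT a c n δ ∧
        |S n δ| < (K0 ^ n)⁻¹ ∧ Nat.primeCounting n = z.1 ∧ S n δ = z.2 := by
      intro z hz
      obtain ⟨n, hn, δ, h0, h1, h2, h3⟩ := hT z hz
      exact ⟨n, hn.1, hn.2, δ, h0, h1, h2, congrArg Prod.fst h3, congrArg Prod.snd h3⟩
    choose! nn hn1 hn2 dd hd0 hd1 hd2 hn3 hd3 using hT'
    refine hN1 a c N M (le_trans (le_max_left _ _) hN) hNM hM T nn dd hn1 hn2 hd1 hd2 ?_
    intro v hv w hw hvw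
    by_cases hpi : Nat.primeCounting (nn v) = Nat.primeCounting (nn w)
    · rw [hd3 v hv, hd3 w hw]
      intro h
      apply hvw
      rw [hn3 v hv, hn3 w hw] at hpi
      exact Prod.ext hpi h
    have hne : nn v ≠ nn w := fun h => hpi (by rw [h])
    have hv16 : 16 ≤ nn v := hN16.trans (hn1 v hv)
    have hw16 : 16 ≤ nn w := hN16.trans (hn1 w hw)
    rcases lt_or_gt_of_ne hne with h | h
    · exact S_neT _ _ _ _ h hw16 hpi (hd0 w hw)
    · exact (S_neT _ _ _ _ h hv16 (Ne.symm hpi) (hd0 v hv)).symm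
  · rintro z ⟨n, hn, δ, h0, h1, h2, rfl⟩
    obtain ⟨b, hb1, hb2⟩ := small_mem N0 n δ hn h2
    refine ⟨(Nat.primeCounting n, b), ⟨?_, hb1⟩, ?_⟩
    · exact Nat.monotone_primeCounting (le_of_lt hn)
    · simp only [hb2]

end Pool.Agent.FSS
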